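import Pool.Agent.U44.EQ.Gen

/-!
# The `Δ⁰₂`-categorical computable equivalence structures

`CES` are the computable equivalence structures: a computable universe `A ⊆ ℕ` (finite or
infinite) and a computable equivalence relation on it.  `num M n` is the number of classes of `M`
of size `n` (`n` finite or infinite).

A uniformly c.e. family of sets `V 0, V 1, …` *fits* `M` if for every `n ≠ 0` (finite or infinite)
at most `num M n` of the sets have exactly `n` elements.

For every oracle `D` which computes the halting problem and every computable equivalence structure
`M` the following are equivalent: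

1. `M` is `D`-computably categorical (for the halting problem `D = 0'`: `M` is
   `Δ⁰₂`-categorical);
2. in every computable copy of `M` the set of the elements whose class is infinite is computable
   in `D`;
3. for every uniformly c.e. family `V` which fits `M` the set `{x | V x is infinite}` is computable
   in `D`;
4. for every uniformly c.e. family `V` which fits `M` there is a `D`-computable function `h` such
   that every finite `V x` has at most `h x` elements.

Conditions 3 and 4 only involve the numbers of classes of each size.  Consequently `D`-computable
categoricity passes from `M'` to every computable equivalence structure `M` which has, for each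
size, at most as many classes as `M'`.
-/

set_option autoImplicit false

namespace Pool.Agent.Results.MP_5709ea_lc.DeltaTwoCategorical

open Pool.Agent.Helper583.TC (Red)
open Pool.Agent.U44.EQ (CES Iso num Fits chi)

/-- The halting problem: the program with number `e` halts on the input `e`. -/
def Halts (e : ℕ) : Prop := ((Denumerable.ofNat Nat.Partrec.Code e).eval e).Dom

/-- `M` is `D`-computably categorical. -/
def DCat (D : ℕ → ℕ) (M : CES) : Prop :=
  ∀ N : CES, (∃ f, Iso M N f) → ∃ f, Iso M N f ∧ Red f D

/-- In every computable copy of `M` the union of the infinite classes is computable in `D`. -/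
def InfPart (D : ℕ → ℕ) (M : CES) : Prop :=
  ∀ N : CES, (∃ f, Iso M N f) → Red (chi fun x => {y | N.E x y}.Infinite) D

/-- The infinite members of every uniformly c.e. family which fits `M` are computable in `D`. -/
def InfFam (D : ℕ → ℕ) (M : CES) : Prop :=
  ∀ V : ℕ → ℕ → Prop, (REPred fun p : ℕ × ℕ => V p.1 p.2) → Fits M V →
    Red (chi fun x => {y | V x y}.Infinite) D

/-- The sizes of the finite members of every uniformly c.e. family which fits `M` are bounded by a
function computable in `D`. -/
def BdFam (D : ℕ → ℕ) (M : CES) : Prop :=
  ∀ V : ℕ → ℕ → Prop, (REPred fun p : ℕ × ℕ => V p.1 p.2) → Fits M V →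
    ∃ h : ℕ → ℕ, Red h D ∧ ∀ x, {y | V x y}.Finite → Set.encard {y | V x y} ≤ h x

theorem chi_halts : chi Halts = Pool.Agent.U44.TD.chH := by
  funext e
  unfold chi Pool.Agent.U44.TD.chH
  by_cases h : Halts e
  · rw [if_pos h, if_pos ((Pool.Agent.U44.TD.exists_T_iff e).2 h)]
  · rw [if_neg h, if_neg fun h' => h ((Pool.Agent.U44.TD.exists_T_iff e).1 h')]

theorem tfae {D : ℕ → ℕ} (hD : Red (chi Halts) D) (M : CES) :
    List.TFAE [DCat D M, InfPart D M, InfFam D M, BdFam D M] :=
  Pool.Agent.U44.EQ.char_gen (by rw [← chi_halts]; exact hD) M

/-- The characterisation of the `D`-computably categorical computable equivalence structures for all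
oracles `D` above the halting problem, the case `D = chi Halts` being `Δ⁰₂`-categoricity. -/
theorem result :
    Red (chi Halts) (chi Halts) ∧
    ∀ D : ℕ → ℕ, Red (chi Halts) D →
      (∀ M : CES, List.TFAE [DCat D M, InfPart D M, InfFam D M, BdFam D M]) ∧
      ∀ M M' : CES, (∀ n : ℕ∞, n ≠ 0 → num M n ≤ num M' n) → DCat D M' → DCat D M := by
  refine ⟨Nat.RecursiveIn.oracle _ rfl, fun D hD => ⟨tfae hD, fun M M' h hc => ?_⟩⟩
  have h1 : InfFam D M' := ((tfae hD M').out 0 2).1 hc
  exact ((tfae hD M).out 2 0).1 fun V hV (hf : Fits M V) =>
    h1 V hV fun n hn => (hf n hn).trans (h n hn)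

end Pool.Agent.Results.MP_5709ea_lc.DeltaTwoCategorical
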